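import Pool.Agent.helper62.QU.Spec

/-!
# Row qu:SYM (MP_07c750_an): symmetry of double integrals of invariant kernels
-/

set_option autoImplicit false

open scoped MatrixGroups ContDiff Topology UpperHalfPlane
open UpperHalfPlane MeasureTheory Filter Set

namespace Pool.Agent.QU

theorem SYM_int {E : Type} [NormedAddCommGroup E] (F K : Set ℍ) (hF : MeasurableSet F)
    (hK : IsCompact K) (hFK : F ⊆ K) (G : ℍ → ℍ → E) (hG : Continuous (Function.uncurry G))
    (R : ℝ) (hR : ∀ z w, G z w ≠ 0 → dist z w ≤ R) :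
    IntegrableOn (Function.uncurry G) (F ×ˢ (univ : Set ℍ))
      ((volume : Measure ℍ).prod (volume : Measure ℍ)) := by
  have hK' : IsCompact (Metric.cthickening R K) := hK.cthickening
  have h1 : IntegrableOn (Function.uncurry G) (K ×ˢ Metric.cthickening R K)
      ((volume : Measure ℍ).prod (volume : Measure ℍ)) :=
    hG.continuousOn.integrableOn_compact (hK.prod hK')
  refine IntegrableOn.of_forall_sdiff_eq_zero h1 (hF.prod MeasurableSet.univ) ?_
  rintro ⟨z, w⟩ ⟨⟨hz, -⟩, hzw⟩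
  by_contra hne
  apply hzw
  refine ⟨hFK hz, ?_⟩
  refine Metric.mem_cthickening_of_dist_le w z R K (hFK hz) ?_
  rw [dist_comm]
  exact hR z w hne

theorem SYM_dom (Γ : Subgroup SL(2, ℝ)) (F : Set ℍ) (hF : NiceDom Γ F) :
    IsFundamentalDomain Γ (F ×ˢ (univ : Set ℍ))
      ((volume : Measure ℍ).prod (volume : Measure ℍ)) := by
  refine IsFundamentalDomain.mk' (hF.meas.prod MeasurableSet.univ).nullMeasurableSet ?_
  rintro ⟨z, w⟩
  obtain ⟨γ, hγ, hu⟩ := hF.uniq z
  exact ⟨γ, ⟨hγ, mem_univ _⟩, fun γ' h => hu γ' h.1⟩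

theorem SYM_dom' (Γ : Subgroup SL(2, ℝ)) (F : Set ℍ) (hF : NiceDom Γ F) :
    IsFundamentalDomain Γ ((univ : Set ℍ) ×ˢ F)
      ((volume : Measure ℍ).prod (volume : Measure ℍ)) := by
  refine IsFundamentalDomain.mk' (MeasurableSet.univ.prod hF.meas).nullMeasurableSet ?_
  rintro ⟨z, w⟩
  obtain ⟨γ, hγ, hu⟩ := hF.uniq w
  exact ⟨γ, ⟨mem_univ _, hγ⟩, fun γ' h => hu γ' h.2⟩

theorem SYM (h1 : INV_stmt) (h2 : DOB_stmt) : SYM_stmt := by
  intro Γ F E _ _ _ G hΓ hF hG hinv hR
  obtain ⟨R, hR⟩ := hR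
  obtain ⟨K, hK, hFK⟩ := hF.rel
  obtain ⟨hcount, -⟩ := h2 Γ F hΓ hF
  have := hcount
  have : SMulInvariantMeasure Γ ℍ (volume : Measure ℍ) := h1.2.1 Γ
  have : MeasurableConstSMul Γ ℍ := ⟨fun γ => by
    have : Continuous fun z : ℍ => γ • z := continuous_const_smul γ
    exact this.measurable⟩
  have : MeasurableConstSMul Γ (ℍ × ℍ) := ⟨fun γ =>
    (measurable_const_smul γ).prodMap (measurable_const_smul γ)⟩
  have : SMulInvariantMeasure Γ (ℍ × ℍ)
      ((volume : Measure ℍ).prod (volume : Measure ℍ)) :=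
    ⟨fun γ s hs => ((measurePreserving_smul γ (volume : Measure ℍ)).prod
      (measurePreserving_smul γ (volume : Measure ℍ))).measure_preimage hs.nullMeasurableSet⟩
  have e1 : ∫ z in F, ∫ w : ℍ, G z w =
      ∫ x in F ×ˢ (univ : Set ℍ), Function.uncurry G x ∂(volume : Measure ℍ).prod (volume : Measure ℍ) := by
    rw [setIntegral_prod _ (SYM_int F K hF.meas hK hFK G hG R hR)]
    simp only [Measure.restrict_univ, Function.uncurry_apply_pair]
  have hG' : Continuous (Function.uncurry fun z w => G w z) := hG.comp continuous_swap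
  have i2 := SYM_int F K hF.meas hK hFK (fun z w => G w z) hG' R
    (fun z w h => by rw [dist_comm]; exact hR w z h)
  have e2 : ∫ z in F, ∫ w : ℍ, G w z =
      ∫ x in F ×ˢ (univ : Set ℍ), (Function.uncurry fun z w => G w z) x
        ∂(volume : Measure ℍ).prod (volume : Measure ℍ) := by
    rw [setIntegral_prod _ i2]
    simp only [Measure.restrict_univ, Function.uncurry_apply_pair]
  have e3 : ∫ x in F ×ˢ (univ : Set ℍ), (Function.uncurry fun z w => G w z) x
        ∂(volume : Measure ℍ).prod (volume : Measure ℍ) =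
      ∫ x in (univ : Set ℍ) ×ˢ F, Function.uncurry G x
        ∂(volume : Measure ℍ).prod (volume : Measure ℍ) := by
    have h5 := (Measure.measurePreserving_swap (μ := (volume : Measure ℍ))
      (ν := (volume : Measure ℍ))).setIntegral_preimage_emb
      (MeasurableEquiv.prodComm.measurableEmbedding) (Function.uncurry G)
      ((univ : Set ℍ) ×ˢ F)
    rw [← h5]
    have e4 : (Prod.swap ⁻¹' ((univ : Set ℍ) ×ˢ F) : Set (ℍ × ℍ)) = F ×ˢ (univ : Set ℍ) := by
      ext ⟨a, b⟩
      simp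
    rw [e4]
    rfl
  rw [e1, e2, e3]
  refine (SYM_dom Γ F hF).setIntegral_eq (SYM_dom' Γ F hF) ?_
  rintro γ ⟨z, w⟩
  exact hinv γ z w

end Pool.Agent.QU
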